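import Pool.Agent.H16.UDA.SLa

/-!
# The slices of the inverse images in terms of the current (row SL)
-/

set_option autoImplicit false

open Polynomial MeasureTheory Filter Topology Set
open scoped OnePoint ComplexConjugate ComplexOrder Laplacian ENNReal Nat

open Pool.Agent.H83.UE

namespace Pool.Agent.H16.UDA

section alg

variable {k m d : ℕ}

/-- the square of the norm of the Jacobian determinant -/
theorem bdet_sq (g : RatMap d) (n : ℕ) (F0 : (Fin k → ℂ) → (Fin m → ℂ))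
    (u : (Fin m → ℂ) → (Fin k → ℂ)) (t : Fin m → ℂ) (x : Fin k → ℂ) :
    ((‖bdet g n F0 u t x‖ ^ 2 : ℝ) : ℂ) = ∑ I : Idx k m, ∑ J : Idx k m,
      (minor F0 I x * conj (minor F0 J x)) /
        ((∏ i ∈ I.1, g.der n (x i)) * conj (∏ j ∈ J.1, g.der n (x j))) *
        (rmin u I t * conj (rmin u J t)) := by
  have h1 : ((‖bdet g n F0 u t x‖ ^ 2 : ℝ) : ℂ) = bdet g n F0 u t x * conj (bdet g n F0 u t x) := by
    rw [Complex.mul_conj']
    push_cast
    rfl
  rw [h1]
  unfold bdet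
  rw [map_sum, Finset.sum_mul_sum]
  refine Finset.sum_congr rfl fun I _ => Finset.sum_congr rfl fun J _ => ?_
  rw [map_mul, map_div₀]
  simp only [div_eq_mul_inv, mul_inv]
  ring

/-- the function on the fibres -/
noncomputable def FF (g : RatMap d) (n : ℕ) (χ : (Fin k → ℂ) → ℂ) (x : Fin k → ℂ) : ℂ :=
  (stab (Finset.univ.val.map (valT g n x)) : ℂ) *
    (∏ l, ((g.fib n (valT g n x l)).rootMultiplicity (x l) : ℂ)) * χ (coef x)

theorem sum_fibre (hIT : T_IT) (hd : 1 ≤ d) (g : RatMap d) (n : ℕ)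
    (L : (Fin k → ℂ) →ₗ[ℂ] (Fin m → ℂ)) (χ : (Fin k → ℂ) → ℂ)
    (u : (Fin m → ℂ) → (Fin k → ℂ)) (t : Fin m → ℂ) :
    ∑ x ∈ fibre g n (u t), FF g n χ x *
        ((‖bdet g n (fun x => L (coef x)) u t x‖ ^ 2 : ℝ) : ℂ) =
      ∑ I : Idx k m, ∑ J : Idx k m, pushCoeff (fun _ => g) n I J (tform L χ I J) (u t) *
        stab (Finset.univ.val.map (u t)) * (rmin u I t * conj (rmin u J t)) := by
  have h1 : ∀ x ∈ fibre g n (u t), FF g n χ x *
      ((‖bdet g n (fun x => L (coef x)) u t x‖ ^ 2 : ℝ) : ℂ) =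
      ∑ I : Idx k m, ∑ J : Idx k m, ((∏ l, ((g.fib n (u t l)).rootMultiplicity (x l) : ℂ)) *
        (tform L χ I J x / ((∏ i ∈ I.1, g.der n (x i)) * conj (∏ j ∈ J.1, g.der n (x j))))) *
        (stab (Finset.univ.val.map (u t)) * (rmin u I t * conj (rmin u J t))) := by
    intro x hx
    obtain ⟨-, hv, -⟩ := fibre_facts hIT hd g n hx
    rw [bdet_sq, Finset.mul_sum]
    refine Finset.sum_congr rfl fun I _ => ?_
    rw [Finset.mul_sum]
    refine Finset.sum_congr rfl fun J _ => ?_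
    unfold FF tform
    rw [hv]
    ring
  rw [Finset.sum_congr rfl h1, Finset.sum_comm]
  refine Finset.sum_congr rfl fun I _ => ?_
  rw [Finset.sum_comm]
  refine Finset.sum_congr rfl fun J _ => ?_
  rw [← Finset.sum_mul, mul_assoc]
  rfl

theorem norm_FF_le (hIT : T_IT) (hMON : T_MON) (hd : 1 ≤ d) (g : RatMap d) (n : ℕ)
    (χ : (Fin k → ℂ) → ℂ) (B : ℝ) (hB : ∀ w, ‖χ w‖ ≤ B) (x : Fin k → ℂ) :
    ‖FF g n χ x‖ ≤ (k ! : ℝ) * (∏ _l : Fin k, ((d ^ n : ℕ) : ℝ)) * B := by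
  obtain ⟨-, m2, -, m4, -⟩ := hMON k
  have hs : stab (Finset.univ.val.map (valT g n x)) ≤ k ! := by
    have h1 := (m4 (coef (valT g n x))).2
    rw [(m2 (valT g n x)).2] at h1
    exact Nat.le_of_dvd (Nat.factorial_pos k) ⟨_, by rw [mul_comm]; exact h1.symm⟩
  unfold FF
  rw [norm_mul, norm_mul, norm_prod, Complex.norm_natCast]
  refine mul_le_mul (mul_le_mul (by exact_mod_cast hs) ?_ ?_ ?_) (hB _) (norm_nonneg _) ?_
  · refine Finset.prod_le_prod (fun i _ => norm_nonneg _) fun l _ => ?_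
    rw [Complex.norm_natCast]
    exact_mod_cast mult_le hIT hd g n _ _
  · exact Finset.prod_nonneg fun _ _ => norm_nonneg _
  · positivity
  · positivity

theorem measurable_FF (hIT : T_IT) (hd : 1 ≤ d) (g : RatMap d) (n : ℕ)
    (χ : (Fin k → ℂ) → ℂ) (hχ : Measurable fun x => χ (coef x)) : Measurable (FF g n χ) := by
  unfold FF
  refine Measurable.mul (Measurable.mul ?_ ?_) hχ
  · exact (measurable_of_countable (fun j : ℕ => (j : ℂ))).comp
      (measurable_stab.comp (measurable_valT g n))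
  · refine Finset.measurable_fun_prod _ fun l _ => ?_
    exact (measurable_of_countable (fun j : ℕ => (j : ℂ))).comp
      ((measurable_mult hIT hd g n).comp (measurable_pi_apply l))

theorem one_le_stab (s : Multiset ℂ) : 1 ≤ stab s :=
  Nat.one_le_iff_ne_zero.2 (Finset.prod_ne_zero_iff.2 fun _ _ => Nat.factorial_ne_zero _)

/-- the real form of the diagonal coefficients -/
theorem pushCoeff_diag (g : RatMap d) (n : ℕ)
    (L : (Fin k → ℂ) →ₗ[ℂ] (Fin m → ℂ)) (e : (Fin k → ℂ) → ℝ) (I : Idx k m) (z : Fin k → ℂ) :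
    pushCoeff (fun _ => g) n I I (tform L (fun w => (e w : ℂ)) I I) z =
      ((∑ x ∈ fibre g n z, (∏ l, ((g.fib n (z l)).rootMultiplicity (x l) : ℝ)) *
        (e (coef x) * (‖minor (fun x => L (coef x)) I x‖ ^ 2 /
          ‖∏ i ∈ I.1, g.der n (x i)‖ ^ 2)) : ℝ) : ℂ) := by
  unfold pushCoeff fibSum tform
  rw [Complex.ofReal_sum]
  refine Finset.sum_congr rfl fun x _ => ?_
  push_cast
  congr 1
  rw [← Complex.mul_conj', ← Complex.mul_conj', mul_div_assoc]

/-- the real coefficient -/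
noncomputable def pr (g : RatMap d) (n : ℕ) (L : (Fin k → ℂ) →ₗ[ℂ] (Fin m → ℂ))
    (e : (Fin k → ℂ) → ℝ) (I : Idx k m) (z : Fin k → ℂ) : ℝ :=
  ∑ x ∈ fibre g n z, (∏ l, ((g.fib n (z l)).rootMultiplicity (x l) : ℝ)) *
        (e (coef x) * (‖minor (fun x => L (coef x)) I x‖ ^ 2 /
          ‖∏ i ∈ I.1, g.der n (x i)‖ ^ 2))

theorem pr_nonneg (g : RatMap d) (n : ℕ) (L : (Fin k → ℂ) →ₗ[ℂ] (Fin m → ℂ))
    (e : (Fin k → ℂ) → ℝ) (he : ∀ w, 0 ≤ e w) (I : Idx k m) (z : Fin k → ℂ) :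
    0 ≤ pr g n L e I z := by
  unfold pr
  refine Finset.sum_nonneg fun x _ => mul_nonneg (Finset.prod_nonneg fun _ _ => by positivity)
    (mul_nonneg (he _) (by positivity))

theorem norm_pushCoeff_diag (g : RatMap d) (n : ℕ)
    (L : (Fin k → ℂ) →ₗ[ℂ] (Fin m → ℂ)) (e : (Fin k → ℂ) → ℝ) (he : ∀ w, 0 ≤ e w)
    (I : Idx k m) (z : Fin k → ℂ) :
    ‖pushCoeff (fun _ => g) n I I (tform L (fun w => (e w : ℂ)) I I) z‖ = pr g n L e I z := by
  rw [pushCoeff_diag, Complex.norm_real, Real.norm_eq_abs]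
  exact abs_of_nonneg (pr_nonneg g n L e he I z)

/-- the square of the determinant is bounded by the diagonal terms -/
theorem bdet_le (g : RatMap d) (n : ℕ) (F0 : (Fin k → ℂ) → (Fin m → ℂ))
    (u : (Fin m → ℂ) → (Fin k → ℂ)) (t : Fin m → ℂ) (x : Fin k → ℂ) :
    ‖bdet g n F0 u t x‖ ^ 2 ≤ (Fintype.card (Idx k m) : ℝ) * ∑ I : Idx k m,
      ‖minor F0 I x‖ ^ 2 / ‖∏ i ∈ I.1, g.der n (x i)‖ ^ 2 * ‖rmin u I t‖ ^ 2 := by
  unfold bdet
  have h1 : ‖∑ I : Idx k m, minor F0 I x * (rmin u I t / ∏ i ∈ I.1, g.der n (x i))‖ ≤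
      ∑ I : Idx k m, ‖minor F0 I x * (rmin u I t / ∏ i ∈ I.1, g.der n (x i))‖ :=
    norm_sum_le _ _
  have h2 := sq_sum_le_card_mul_sum_sq (s := (Finset.univ : Finset (Idx k m)))
    (f := fun I => ‖minor F0 I x * (rmin u I t / ∏ i ∈ I.1, g.der n (x i))‖)
  refine (pow_le_pow_left₀ (norm_nonneg _) h1 2).trans (h2.trans (le_of_eq ?_))
  rw [Finset.card_univ]
  congr 1
  refine Finset.sum_congr rfl fun I _ => ?_
  rw [norm_mul, norm_div]
  ring

open Classical in
theorem real_bound (hIT : T_IT) (hd : 1 ≤ d) (g : RatMap d) (n : ℕ)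
    (L : (Fin k → ℂ) →ₗ[ℂ] (Fin m → ℂ)) (e : (Fin k → ℂ) → ℝ) (he : ∀ w, 0 ≤ e w)
    (K : Set (Fin k → ℂ)) (hK : ∀ x ∈ K, 1 ≤ e (coef x))
    (u : (Fin m → ℂ) → (Fin k → ℂ)) (t : Fin m → ℂ) :
    ∑ x ∈ fibre g n (u t), (if x ∈ K then (1 : ℝ) else 0) *
        ‖bdet g n (fun x => L (coef x)) u t x‖ ^ 2 ≤
      (Fintype.card (Idx k m) : ℝ) * ∑ I : Idx k m, pr g n L e I (u t) *
        (stab (Finset.univ.val.map (u t)) : ℝ) * ‖rmin u I t‖ * ‖rmin u I t‖ := by
  have h1 : ∀ x ∈ fibre g n (u t), (if x ∈ K then (1 : ℝ) else 0) *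
        ‖bdet g n (fun x => L (coef x)) u t x‖ ^ 2 ≤
      (Fintype.card (Idx k m) : ℝ) * ∑ I : Idx k m,
        ((∏ l, ((g.fib n (u t l)).rootMultiplicity (x l) : ℝ)) *
          (e (coef x) * (‖minor (fun x => L (coef x)) I x‖ ^ 2 /
          ‖∏ i ∈ I.1, g.der n (x i)‖ ^ 2))) * ‖rmin u I t‖ ^ 2 := by
    intro x hx
    obtain ⟨-, -, hm⟩ := fibre_facts hIT hd g n hx
    have hprod : (1 : ℝ) ≤ ∏ l, ((g.fib n (u t l)).rootMultiplicity (x l) : ℝ) := by
      have h3 : ∏ _l : Fin k, (1 : ℝ) ≤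
          ∏ l, ((g.fib n (u t l)).rootMultiplicity (x l) : ℝ) :=
        Finset.prod_le_prod (fun _ _ => zero_le_one) fun l _ => by exact_mod_cast hm l
      rwa [Finset.prod_const_one] at h3
    have hbd := bdet_le g n (fun x => L (coef x)) u t x
    have hS : 0 ≤ ∑ I : Idx k m, ‖minor (fun x => L (coef x)) I x‖ ^ 2 /
        ‖∏ i ∈ I.1, g.der n (x i)‖ ^ 2 * ‖rmin u I t‖ ^ 2 :=
      Finset.sum_nonneg fun I _ => by positivity
    have hfac : (if x ∈ K then (1 : ℝ) else 0) ≤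
        (∏ l, ((g.fib n (u t l)).rootMultiplicity (x l) : ℝ)) * e (coef x) := by
      split_ifs with hxK
      · calc (1 : ℝ) = 1 * 1 := by ring
          _ ≤ _ := mul_le_mul hprod (hK x hxK) zero_le_one (by linarith)
      · exact mul_nonneg (by linarith) (he _)
    have hfac0 : (0 : ℝ) ≤ (if x ∈ K then (1 : ℝ) else 0) := by split_ifs <;> norm_num
    calc (if x ∈ K then (1 : ℝ) else 0) * ‖bdet g n (fun x => L (coef x)) u t x‖ ^ 2
        ≤ ((∏ l, ((g.fib n (u t l)).rootMultiplicity (x l) : ℝ)) * e (coef x)) *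
          ((Fintype.card (Idx k m) : ℝ) * ∑ I : Idx k m,
          ‖minor (fun x => L (coef x)) I x‖ ^ 2 / ‖∏ i ∈ I.1, g.der n (x i)‖ ^ 2 *
            ‖rmin u I t‖ ^ 2) :=
          mul_le_mul hfac hbd (by positivity) (hfac0.trans hfac)
      _ = _ := by
          rw [Finset.mul_sum, Finset.mul_sum, Finset.mul_sum]
          refine Finset.sum_congr rfl fun I _ => ?_
          ring
  refine (Finset.sum_le_sum h1).trans ?_
  rw [← Finset.mul_sum, Finset.sum_comm]
  refine mul_le_mul_of_nonneg_left ?_ (by positivity)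
  refine Finset.sum_le_sum fun I _ => ?_
  rw [← Finset.sum_mul]
  change pr g n L e I (u t) * ‖rmin u I t‖ ^ 2 ≤ _
  have hs : (1 : ℝ) ≤ (stab (Finset.univ.val.map (u t)) : ℝ) := by
    exact_mod_cast one_le_stab _
  have hp := pr_nonneg g n L e he I (u t)
  calc pr g n L e I (u t) * ‖rmin u I t‖ ^ 2
      = pr g n L e I (u t) * 1 * ‖rmin u I t‖ * ‖rmin u I t‖ := by ring
    _ ≤ _ := by
        refine mul_le_mul_of_nonneg_right (mul_le_mul_of_nonneg_right
          (mul_le_mul_of_nonneg_left hs hp) (norm_nonneg _)) (norm_nonneg _)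

theorem enn_bound (hIT : T_IT) (hd : 1 ≤ d) (g : RatMap d) (n : ℕ)
    (L : (Fin k → ℂ) →ₗ[ℂ] (Fin m → ℂ)) (e : (Fin k → ℂ) → ℝ) (he : ∀ w, 0 ≤ e w)
    (K : Set (Fin k → ℂ)) (hK : ∀ x ∈ K, 1 ≤ e (coef x))
    (u : (Fin m → ℂ) → (Fin k → ℂ)) (t : Fin m → ℂ) :
    ∑ x ∈ fibre g n (u t), K.indicator (1 : (Fin k → ℂ) → ℝ≥0∞) x *
        ENNReal.ofReal (‖bdet g n (fun x => L (coef x)) u t x‖ ^ 2) ≤
      (Fintype.card (Idx k m) : ℝ≥0∞) * ∑ I : Idx k m,
        ‖pushCoeff (fun _ => g) n I I (tform L (fun w => (e w : ℂ)) I I) (u t)‖ₑ *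
          (stab (Finset.univ.val.map (u t)) : ℝ≥0∞) * ‖rmin u I t‖ₑ * ‖rmin u I t‖ₑ := by
  classical
  have h1 : ∑ x ∈ fibre g n (u t), K.indicator (1 : (Fin k → ℂ) → ℝ≥0∞) x *
        ENNReal.ofReal (‖bdet g n (fun x => L (coef x)) u t x‖ ^ 2) =
      ENNReal.ofReal (∑ x ∈ fibre g n (u t), (if x ∈ K then (1 : ℝ) else 0) *
        ‖bdet g n (fun x => L (coef x)) u t x‖ ^ 2) := by
    rw [ENNReal.ofReal_sum_of_nonneg]
    · refine Finset.sum_congr rfl fun x _ => ?_
      by_cases hx : x ∈ K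
      · rw [indicator_of_mem hx, if_pos hx, one_mul, Pi.one_apply, one_mul]
      · rw [indicator_of_notMem hx, if_neg hx, zero_mul, zero_mul, ENNReal.ofReal_zero]
    · intro x _
      split_ifs <;> positivity
  have h2 : (Fintype.card (Idx k m) : ℝ≥0∞) * ∑ I : Idx k m,
        ‖pushCoeff (fun _ => g) n I I (tform L (fun w => (e w : ℂ)) I I) (u t)‖ₑ *
          (stab (Finset.univ.val.map (u t)) : ℝ≥0∞) * ‖rmin u I t‖ₑ * ‖rmin u I t‖ₑ =
      ENNReal.ofReal ((Fintype.card (Idx k m) : ℝ) * ∑ I : Idx k m, pr g n L e I (u t) *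
        (stab (Finset.univ.val.map (u t)) : ℝ) * ‖rmin u I t‖ * ‖rmin u I t‖) := by
    rw [ENNReal.ofReal_mul (by positivity), ENNReal.ofReal_natCast, ENNReal.ofReal_sum_of_nonneg]
    · congr 1
      refine Finset.sum_congr rfl fun I _ => ?_
      have hp := pr_nonneg g n L e he I (u t)
      rw [ENNReal.ofReal_mul (by positivity), ENNReal.ofReal_mul (by positivity),
        ENNReal.ofReal_mul hp, ENNReal.ofReal_natCast, ofReal_norm, ← norm_pushCoeff_diag g n L e he,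
        ofReal_norm]
    · intro I _
      have hp := pr_nonneg g n L e he I (u t)
      positivity
  rw [h1, h2]
  exact ENNReal.ofReal_le_ofReal (real_bound hIT hd g n L e he K hK u t)

end alg

/-! ### measurability on the pieces -/

theorem measurable_rmin {k m : ℕ} (u : (Fin m → ℂ) → (Fin k → ℂ)) (I : Idx k m) :
    Measurable (rmin u I) := by
  have h : rmin u I = fun t => ∑ σ : Equiv.Perm (Fin m), ((Equiv.Perm.sign σ : ℤ) : ℂ) *
      ∏ i : Fin m, fderiv ℂ u t (Pi.single i 1) (I.1.orderEmbOfFin I.2 (σ i)) := by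
    funext t
    unfold rmin
    rw [Matrix.det_apply']
    rfl
  rw [h]
  refine Finset.measurable_fun_sum _ fun σ _ => ?_
  refine Measurable.mul measurable_const ?_
  refine Finset.measurable_fun_prod _ fun i _ => ?_
  exact (measurable_pi_apply _).comp (measurable_fderiv_apply_const ℂ u (Pi.single i 1))

section meas

variable {k m : ℕ}

theorem aem_piece {V : Set (Fin k → ℂ)} {c : ℕ → Fin m → ℂ} {r : ℕ → ℝ}
    {S : ℕ → Set (Fin m → ℂ)} {u : ℕ → (Fin m → ℂ) → (Fin k → ℂ)} (hp : Pieces m V c r S u)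
    (a : ℕ) : AEMeasurable (u a) (volume.restrict (S a)) := by
  obtain ⟨h1, h2, h3, -⟩ := hp.1 a
  exact (h3.continuousOn.mono h2).aemeasurable h1

theorem aem_weight {V : Set (Fin k → ℂ)} {c : ℕ → Fin m → ℂ} {r : ℕ → ℝ}
    {S : ℕ → Set (Fin m → ℂ)} {u : ℕ → (Fin m → ℂ) → (Fin k → ℂ)} (hp : Pieces m V c r S u)
    (a : ℕ) (q : (Fin k → ℂ) → ℂ) (hq : Measurable q) (I J : Idx k m) :
    AEMeasurable (fun t => ‖q (u a t)‖ₑ * (stab (Finset.univ.val.map (u a t)) : ℝ≥0∞) *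
      ‖rmin (u a) I t‖ₑ * ‖rmin (u a) J t‖ₑ) (volume.restrict (S a)) := by
  have h1 := aem_piece hp a
  have a1 : AEMeasurable (fun t => ‖q (u a t)‖ₑ) (volume.restrict (S a)) :=
    (hq.enorm).comp_aemeasurable h1
  have a2 : AEMeasurable (fun t => (stab (Finset.univ.val.map (u a t)) : ℝ≥0∞))
      (volume.restrict (S a)) :=
    ((measurable_of_countable (fun j : ℕ => (j : ℝ≥0∞))).comp
      measurable_stab).comp_aemeasurable h1
  have a3 : AEMeasurable (fun t => ‖rmin (u a) I t‖ₑ) (volume.restrict (S a)) :=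
    (measurable_rmin (u a) I).enorm.aemeasurable
  have a4 : AEMeasurable (fun t => ‖rmin (u a) J t‖ₑ) (volume.restrict (S a)) :=
    (measurable_rmin (u a) J).enorm.aemeasurable
  exact ((a1.mul a2).mul a3).mul a4

theorem aem_term {V : Set (Fin k → ℂ)} {c : ℕ → Fin m → ℂ} {r : ℕ → ℝ}
    {S : ℕ → Set (Fin m → ℂ)} {u : ℕ → (Fin m → ℂ) → (Fin k → ℂ)} (hp : Pieces m V c r S u)
    (a : ℕ) (q : (Fin k → ℂ) → ℂ) (hq : Measurable q) (I J : Idx k m) :
    AEMeasurable (fun t => q (u a t) * (stab (Finset.univ.val.map (u a t)) : ℂ) *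
      (rmin (u a) I t * conj (rmin (u a) J t))) (volume.restrict (S a)) := by
  have h1 := aem_piece hp a
  refine AEMeasurable.mul (AEMeasurable.mul ?_ ?_) (Measurable.aemeasurable ?_)
  · exact hq.comp_aemeasurable h1
  · exact ((measurable_of_countable (fun j : ℕ => (j : ℂ))).comp
      measurable_stab).comp_aemeasurable h1
  · exact (measurable_rmin (u a) I).mul
      (Complex.continuous_conj.measurable.comp (measurable_rmin (u a) J))

theorem enorm_term (x : ℂ) (j : ℕ) (y z : ℂ) :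
    ‖x * (j : ℂ) * (y * conj z)‖ₑ = ‖x‖ₑ * (j : ℝ≥0∞) * ‖y‖ₑ * ‖z‖ₑ := by
  have h1 : ‖(j : ℂ)‖ₑ = (j : ℝ≥0∞) := by
    rw [← ofReal_norm, Complex.norm_natCast, ENNReal.ofReal_natCast]
  have h2 : ‖conj z‖ₑ = ‖z‖ₑ := by
    rw [← ofReal_norm, ← ofReal_norm, RCLike.norm_conj]
  rw [enorm_mul, enorm_mul, enorm_mul, h1, h2]
  ring

end meas

theorem pf_SL (h1 : T_CY) (_h2 : T_AC) (_h3 : T_CO1) (_h4 : T_MON) (_h5 : T_TF) (_h6 : T_IT)
    (_h7 : T_AF) (_h8 : T_MEC) : T_SL := by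
  intro k m d hd hmk g V δ hV
  obtain ⟨c, r, S, u, hp1, hp2, hp3⟩ := hV.pieces
  have hp : Pieces m V c r S u := ⟨hp1, hp2, hp3⟩
  obtain ⟨T, hTc, hA, hB⟩ := h1 k m hmk V δ hV c r S u hp
  refine ⟨T, hTc, fun n L hInt χ hχ hχs => ?_⟩
  classical
  -- measurability of the direct images
  have hmec : ∀ (f : (Fin k → ℂ) → ℂ), Continuous f → HasCompactSupport f → ∀ I J : Idx k m,
      Measurable fun z => pushCoeff (fun _ => g) n I J (tform L f I J) z := by
    intro f hf hfs I J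
    obtain ⟨-, t2, t3⟩ := _h5 k m L f I J hf hfs
    exact _h8 k m d hd (fun _ => g) n I J _ t2 t3
  -- the total mass of the terms
  have hmass : ∀ (f : (Fin k → ℂ) → ℂ), Continuous f → HasCompactSupport f → ∀ I J : Idx k m,
      ∑' a, ∫⁻ t in S a, ‖pushCoeff (fun _ => g) n I J (tform L f I J) (u a t)‖ₑ *
        (stab (Finset.univ.val.map (u a t)) : ℝ≥0∞) * ‖rmin (u a) I t‖ₑ * ‖rmin (u a) J t‖ₑ ≠ ⊤ := by
    intro f hf hfs I J
    have e1 := hA (fun z => ‖pushCoeff (fun _ => g) n I J (tform L f I J) z‖ₑ) I J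
      (hmec f hf hfs I J).enorm
    rw [← e1]
    have e2 := (hInt f hf hfs I J).2
    rw [hasFiniteIntegral_iff_enorm] at e2
    have e3 : ∫⁻ z, ‖pushCoeff (fun _ => g) n I J (tform L f I J) z‖ₑ * ‖T.h z I J‖ₑ ∂T.σ =
        ∫⁻ z, ‖pushCoeff (fun _ => g) n I J (tform L f I J) z * T.h z I J‖ₑ ∂T.σ := by
      refine lintegral_congr fun z => ?_
      rw [enorm_mul]
    rw [e3]
    exact e2.ne
  -- the index sets are not empty
  obtain ⟨I₀, -⟩ : ∃ I : Idx k m, True := by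
    obtain ⟨s, -, hs⟩ := Finset.exists_subset_card_eq (s := (Finset.univ : Finset (Fin k)))
      (n := m) (by rw [Finset.card_univ, Fintype.card_fin]; exact hmk)
    exact ⟨⟨s, hs⟩, trivial⟩
  have hdiff : Differentiable ℂ (fun x : Fin k → ℂ => L (coef x)) := (_h5 k m L χ I₀ I₀ hχ hχs).1
  have hcoef : Continuous (coef : (Fin k → ℂ) → Fin k → ℂ) := by
    have h := (_h5 k k LinearMap.id χ ⟨Finset.univ, by rw [Finset.card_univ, Fintype.card_fin]⟩
      ⟨Finset.univ, by rw [Finset.card_univ, Fintype.card_fin]⟩ hχ hχs).1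
    exact h.continuous
  have hχc : Continuous fun x => χ (coef x) := hχ.comp hcoef
  -- the set and the function
  set K : Set (Fin k → ℂ) := {x | χ (coef x) ≠ 0} with hK
  have hKm : MeasurableSet K := by
    have : IsOpen K := isOpen_ne_fun hχc continuous_const
    exact this.measurableSet
  have hFm : Measurable (FF g n χ) := measurable_FF _h6 hd g n χ hχc.measurable
  obtain ⟨B, hBd⟩ := hχ.bounded_above_of_compact_support hχs
  have hFb := norm_FF_le _h6 _h4 hd g n χ B hBd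
  have hFK : ∀ x, FF g n χ x ≠ 0 → x ∈ K := by
    intro x hx h0
    apply hx
    unfold FF
    rw [h0, mul_zero]
  -- the cut-off function
  obtain ⟨R, hR⟩ := hχs.isCompact.isBounded.subset_closedBall (0 : Fin k → ℂ)
  set e : (Fin k → ℂ) → ℝ := fun w => max 0 (min 1 (R + 1 - ‖w‖)) with he
  have hec : Continuous e := by
    rw [he]
    fun_prop
  have he0 : ∀ w, 0 ≤ e w := fun w => le_max_left _ _
  have hecc : Continuous fun w => (e w : ℂ) := Complex.continuous_ofReal.comp hec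
  have hecs : HasCompactSupport fun w => (e w : ℂ) := by
    refine HasCompactSupport.intro (isCompact_closedBall (0 : Fin k → ℂ) (R + 1)) fun w hw => ?_
    rw [mem_closedBall_zero_iff, not_le] at hw
    have h3 : e w = 0 := by
      rw [he]
      simp only
      refine max_eq_left ((min_le_right _ _).trans ?_)
      linarith
    rw [h3, Complex.ofReal_zero]
  have heK : ∀ x ∈ K, 1 ≤ e (coef x) := by
    intro x hx
    have h4 : coef x ∈ tsupport χ := subset_tsupport χ hx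
    have h5 := hR h4
    rw [mem_closedBall_zero_iff] at h5
    rw [he]
    simp only
    refine le_max_of_le_right (le_min le_rfl ?_)
    linarith
  -- the hypothesis of AC
  have hfin : ∑' a, ∫⁻ t in S a, ∑ x ∈ fibre g n (u a t), K.indicator 1 x *
      ENNReal.ofReal (‖bdet g n (fun x => L (coef x)) (u a) t x‖ ^ 2) ≠ ⊤ := by
    have h6 : ∑' a, ∫⁻ t in S a, ∑ x ∈ fibre g n (u a t), K.indicator 1 x *
        ENNReal.ofReal (‖bdet g n (fun x => L (coef x)) (u a) t x‖ ^ 2) ≤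
        ∑' a, (Fintype.card (Idx k m) : ℝ≥0∞) * ∑ I : Idx k m, ∫⁻ t in S a,
          ‖pushCoeff (fun _ => g) n I I (tform L (fun w => (e w : ℂ)) I I) (u a t)‖ₑ *
          (stab (Finset.univ.val.map (u a t)) : ℝ≥0∞) * ‖rmin (u a) I t‖ₑ *
            ‖rmin (u a) I t‖ₑ := by
      refine ENNReal.tsum_le_tsum fun a => ?_
      refine (lintegral_mono fun t => enn_bound _h6 hd g n L e he0 K heK (u a) t).trans ?_
      rw [lintegral_const_mul' _ _ (ENNReal.natCast_ne_top _)]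
      refine mul_le_mul_right ?_ _
      rw [lintegral_finsetSum']
      intro I _
      exact aem_weight hp a _ (hmec _ hecc hecs I I) I I
    refine ne_top_of_le_ne_top ?_ h6
    rw [ENNReal.tsum_mul_left]
    refine ENNReal.mul_ne_top (ENNReal.natCast_ne_top _) ?_
    rw [Summable.tsum_finsetSum (fun I _ => ENNReal.summable)]
    exact ENNReal.sum_ne_top.2 fun I _ => hmass _ hecc hecs I I
  obtain ⟨hae, hac⟩ := _h2 k m d hd g n V c r S u hp (fun x => L (coef x)) K (FF g n χ) _ hdiff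
    hKm hFm hFb hFK hfin
  -- the slice
  have hslice : slice g n V L χ = (k ! : ℂ)⁻¹ * ∫ y : Fin m → ℂ,
      ∑ᶠ x ∈ {x : Fin k → ℂ | RegT g n x ∧ coef (valT g n x) ∈ V ∧ L (coef x) = y},
        FF g n χ x := by
    unfold slice
    rw [← integral_const_mul]
    refine integral_congr_ae ?_
    filter_upwards [hae] with y hy
    exact _h3 k m d g n V L χ y hy
  rw [hslice, hac]
  congr 1
  have hi : ∀ (a : ℕ) (I J : Idx k m), Integrable (fun t =>
      pushCoeff (fun _ => g) n I J (tform L χ I J) (u a t) *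
      (stab (Finset.univ.val.map (u a t)) : ℂ) * (rmin (u a) I t * conj (rmin (u a) J t)))
      (volume.restrict (S a)) := by
    intro a I J
    refine ⟨(aem_term hp a _ (hmec χ hχ hχs I J) I J).aestronglyMeasurable, ?_⟩
    rw [hasFiniteIntegral_iff_enorm]
    refine lt_of_le_of_lt ?_ (lt_top_iff_ne_top.2 (hmass χ hχ hχs I J))
    refine le_trans (le_of_eq ?_) (ENNReal.le_tsum a)
    refine lintegral_congr fun t => ?_
    rw [enorm_term]
  have hterm : ∀ a, ∫ t in S a, ∑ x ∈ fibre g n (u a t), FF g n χ x *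
      ((‖bdet g n (fun x => L (coef x)) (u a) t x‖ ^ 2 : ℝ) : ℂ) =
      ∑ I : Idx k m, ∑ J : Idx k m, ∫ t in S a,
        pushCoeff (fun _ => g) n I J (tform L χ I J) (u a t) *
        (stab (Finset.univ.val.map (u a t)) : ℂ) *
          (rmin (u a) I t * conj (rmin (u a) J t)) := by
    intro a
    rw [integral_congr_ae (Filter.Eventually.of_forall fun t => sum_fibre _h6 hd g n L χ (u a) t)]
    rw [integral_finsetSum _ (fun I _ => integrable_finsetSum _ fun J _ => hi a I J)]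
    refine Finset.sum_congr rfl fun I _ => ?_
    rw [integral_finsetSum _ (fun J _ => hi a I J)]
  have hsum : ∀ I J : Idx k m, Summable fun a => ∫ t in S a,
        pushCoeff (fun _ => g) n I J (tform L χ I J) (u a t) *
        (stab (Finset.univ.val.map (u a t)) : ℂ) *
          (rmin (u a) I t * conj (rmin (u a) J t)) := by
    intro I J
    refine Summable.of_norm_bounded (ENNReal.summable_toReal (hmass χ hχ hχs I J)) fun a => ?_
    refine (norm_integral_le_lintegral_norm _).trans (le_of_eq ?_)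
    congr 1
    refine lintegral_congr fun t => ?_
    rw [ofReal_norm, enorm_term]
  rw [tsum_congr hterm, Summable.tsum_finsetSum (fun I _ => summable_sum fun J _ => hsum I J)]
  refine Finset.sum_congr rfl fun I _ => ?_
  rw [Summable.tsum_finsetSum (fun J _ => hsum I J)]
  refine Finset.sum_congr rfl fun J _ => ?_
  exact (hB _ I J (hmec χ hχ hχs I J) (hInt χ hχ hχs I J)).symm

end Pool.Agent.H16.UDA
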