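import Pool.Agent.H83.UE.Targets2

/-!
# Measurability of the stabilizer number and of multiplicities (for row SL)
-/

set_option autoImplicit false

open Polynomial MeasureTheory Filter Topology Set
open scoped OnePoint ComplexConjugate ComplexOrder Laplacian ENNReal Nat

open Pool.Agent.H83.UE

namespace Pool.Agent.H16.UDA

/-! ### the stabilizer number -/

theorem stab_map {s : Multiset ℂ} {fz : ℂ → ℂ} (hfz : Set.InjOn fz {x | x ∈ s}) :
    stab (s.map fz) = stab s := by
  classical
  unfold stab
  rw [Multiset.toFinset_map, Finset.prod_image]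
  · refine Finset.prod_congr rfl fun x hx => ?_
    rw [Multiset.count_map_eq_count fz s hfz x (Multiset.mem_toFinset.1 hx)]
  · intro a ha b hb hab
    exact hfz (Multiset.mem_toFinset.1 (Finset.mem_coe.1 ha))
      (Multiset.mem_toFinset.1 (Finset.mem_coe.1 hb)) hab

/-- the pattern of equalities -/
noncomputable def pat {k : ℕ} (z : Fin k → ℂ) : Fin k × Fin k → Bool :=
  fun p => open Classical in decide (z p.1 = z p.2)

theorem stab_pat {k : ℕ} {z z' : Fin k → ℂ} (h : pat z = pat z') :
    stab (Finset.univ.val.map z) = stab (Finset.univ.val.map z') := by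
  classical
  have hpat : ∀ i j, z i = z j ↔ z' i = z' j := by
    intro i j
    have h1 := congrFun h (i, j)
    unfold pat at h1
    simp only [decide_eq_decide] at h1
    exact h1
  set fz : ℂ → ℂ := fun x => if hx : ∃ i, z i = x then z' hx.choose else 0 with hfz
  have hhfz2 : ∀ i, fz (z i) = z' i := by
    intro i
    have hx : ∃ j, z j = z i := ⟨i, rfl⟩
    rw [hfz]
    simp only [dif_pos hx]
    exact (hpat _ _).1 hx.choose_spec
  have hcomp : Finset.univ.val.map z' = (Finset.univ.val.map z).map fz := by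
    rw [Multiset.map_map]
    refine Multiset.map_congr rfl fun i _ => ?_
    exact (hhfz2 i).symm
  rw [hcomp, stab_map]
  intro a ha b hb hab
  rw [mem_setOf_eq, Multiset.mem_map] at ha hb
  obtain ⟨i, -, rfl⟩ := ha
  obtain ⟨j, -, rfl⟩ := hb
  rw [hhfz2, hhfz2] at hab
  exact (hpat i j).2 hab

theorem measurable_pat {k : ℕ} : Measurable (pat : (Fin k → ℂ) → Fin k × Fin k → Bool) := by
  classical
  rw [measurable_pi_iff]
  intro p
  refine measurable_to_bool ?_
  have : (fun x : Fin k → ℂ => pat x p) ⁻¹' {true} = {x | x p.1 = x p.2} := by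
    ext x
    rw [mem_preimage, mem_singleton_iff, mem_setOf_eq]
    unfold pat
    simp only [decide_eq_true_eq]
  rw [this]
  exact measurableSet_eq_fun (measurable_pi_apply _) (measurable_pi_apply _)

theorem measurable_stab {k : ℕ} :
    Measurable (fun z : Fin k → ℂ => stab (Finset.univ.val.map z)) := by
  have h : (fun z : Fin k → ℂ => stab (Finset.univ.val.map z)) =
      (Function.extend (pat : (Fin k → ℂ) → Fin k × Fin k → Bool)
        (fun z : Fin k → ℂ => stab (Finset.univ.val.map z)) (fun _ => 0)) ∘ pat := by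
    funext z
    have hf : Function.FactorsThrough (fun z : Fin k → ℂ => stab (Finset.univ.val.map z))
        (pat : (Fin k → ℂ) → Fin k × Fin k → Bool) := fun a b hab => stab_pat hab
    rw [Function.comp_apply, hf.extend_apply]
  rw [h]
  exact (Measurable.of_discrete).comp measurable_pat

/-! ### multiplicities -/

theorem fib_ne {d : ℕ} (hIT : T_IT) (hd : 1 ≤ d) (g : RatMap d) (n : ℕ) (z : ℂ) :
    g.fib n z ≠ 0 := by
  obtain ⟨h1, h2, h3, h4, -⟩ := hIT d hd g n
  intro h0
  unfold RatMap.fib at h0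
  have hP : (g.it n).1 = C z * (g.it n).2 := sub_eq_zero.1 h0
  have hdvd : (g.it n).2 ∣ (g.it n).1 := ⟨C z, by rw [hP, mul_comm]⟩
  have hu : IsUnit (g.it n).2 := h4.symm.isUnit_of_dvd' dvd_rfl hdvd
  have hQ0 : (g.it n).2.natDegree = 0 := natDegree_eq_zero_of_isUnit hu
  have hP0 : (g.it n).1.natDegree = 0 := by
    have h5 : (g.it n).1.natDegree ≤ (C z).natDegree + (g.it n).2.natDegree := by
      conv_lhs => rw [hP]
      exact natDegree_mul_le
    rw [natDegree_C, hQ0] at h5
    omega
  have hpos : 0 < d ^ n := Nat.pow_pos (by omega)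
  rcases h3 with h3 | h3 <;> omega

theorem natDegree_fib_le {d : ℕ} (hIT : T_IT) (hd : 1 ≤ d) (g : RatMap d) (n : ℕ) (z : ℂ) :
    (g.fib n z).natDegree ≤ d ^ n := by
  obtain ⟨h1, h2, -⟩ := hIT d hd g n
  unfold RatMap.fib
  refine (natDegree_sub_le _ _).trans (max_le h1 ?_)
  exact (natDegree_C_mul_le z _).trans h2

theorem mult_le {d : ℕ} (hIT : T_IT) (hd : 1 ≤ d) (g : RatMap d) (n : ℕ) (z x : ℂ) :
    (g.fib n z).rootMultiplicity x ≤ d ^ n := by
  classical
  have h1 : (g.fib n z).rootMultiplicity x ≤ (g.fib n z).natDegree := by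
    rw [← count_roots]
    exact (Multiset.count_le_card _ _).trans (card_roots' _)
  exact h1.trans (natDegree_fib_le hIT hd g n z)

theorem pow_dvd_iff (p : ℂ[X]) (a : ℂ) (j : ℕ) :
    (X - C a) ^ j ∣ p ↔ ∀ i < j, (hasseDeriv i p).eval a = 0 := by
  rw [X_sub_C_pow_dvd_iff, X_pow_dvd_iff]
  refine forall_congr' fun i => imp_congr_right fun _ => ?_
  rw [← taylor_coeff, taylor_apply]

theorem measurable_val {d : ℕ} (g : RatMap d) (n : ℕ) : Measurable (g.val n) := by
  unfold RatMap.val
  exact ((g.it n).1.continuous.measurable).div ((g.it n).2.continuous.measurable)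

theorem measurable_mult {d : ℕ} (hIT : T_IT) (hd : 1 ≤ d) (g : RatMap d) (n : ℕ) :
    Measurable (fun x : ℂ => (g.fib n (g.val n x)).rootMultiplicity x) := by
  have hge : ∀ j : ℕ, MeasurableSet {x : ℂ | j ≤ (g.fib n (g.val n x)).rootMultiplicity x} := by
    intro j
    have h1 : {x : ℂ | j ≤ (g.fib n (g.val n x)).rootMultiplicity x} =
        ⋂ i : Fin j, {x : ℂ | (hasseDeriv (i : ℕ) (g.it n).1).eval x -
          g.val n x * (hasseDeriv (i : ℕ) (g.it n).2).eval x = 0} := by
      ext x
      rw [mem_setOf_eq, le_rootMultiplicity_iff (fib_ne hIT hd g n _), pow_dvd_iff, mem_iInter]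
      have h2 : ∀ i : ℕ, (hasseDeriv i (g.fib n (g.val n x))).eval x =
          (hasseDeriv i (g.it n).1).eval x - g.val n x * (hasseDeriv i (g.it n).2).eval x := by
        intro i
        unfold RatMap.fib
        rw [map_sub, eval_sub, ← smul_eq_C_mul, map_smul, eval_smul, smul_eq_mul]
      constructor
      · intro h i
        rw [mem_setOf_eq, ← h2]
        exact h i i.2
      · intro h i hi
        rw [h2]
        exact h ⟨i, hi⟩
    rw [h1]
    refine MeasurableSet.iInter fun i => ?_
    refine measurableSet_eq_fun ?_ measurable_const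
    exact ((hasseDeriv (i : ℕ) (g.it n).1).continuous.measurable).sub
      ((measurable_val g n).mul ((hasseDeriv (i : ℕ) (g.it n).2).continuous.measurable))
  refine measurable_to_countable' fun j => ?_
  have h3 : (fun x : ℂ => (g.fib n (g.val n x)).rootMultiplicity x) ⁻¹' {j} =
      {x : ℂ | j ≤ (g.fib n (g.val n x)).rootMultiplicity x} \
        {x : ℂ | j + 1 ≤ (g.fib n (g.val n x)).rootMultiplicity x} := by
    ext x
    rw [mem_preimage, mem_singleton_iff, mem_diff, mem_setOf_eq, mem_setOf_eq]
    omega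
  rw [h3]
  exact (hge j).diff (hge (j + 1))

theorem measurable_valT {k d : ℕ} (g : RatMap d) (n : ℕ) :
    Measurable (valT g n : (Fin k → ℂ) → Fin k → ℂ) := by
  rw [measurable_pi_iff]
  intro l
  exact (measurable_val g n).comp (measurable_pi_apply l)

/-! ### the points of the fibre -/

theorem fibre_facts {k d : ℕ} (hIT : T_IT) (hd : 1 ≤ d) (g : RatMap d) (n : ℕ)
    {z x : Fin k → ℂ} (hx : x ∈ fibre g n z) : RegT g n x ∧ valT g n x = z ∧
      ∀ l, 1 ≤ (g.fib n (z l)).rootMultiplicity (x l) := by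
  unfold fibre at hx
  rw [Fintype.mem_piFinset] at hx
  obtain ⟨-, -, -, h4, -⟩ := hIT d hd g n
  have hr : ∀ l, (g.fib n (z l)).IsRoot (x l) := fun l =>
    (mem_roots (fib_ne hIT hd g n (z l))).1 (Multiset.mem_toFinset.1 (hx l))
  have hev : ∀ l, (g.it n).1.eval (x l) = z l * (g.it n).2.eval (x l) := by
    intro l
    have h5 := hr l
    unfold RatMap.fib at h5
    rw [IsRoot.def, eval_sub, eval_mul, eval_C] at h5
    exact sub_eq_zero.1 h5
  have hQ : ∀ l, (g.it n).2.eval (x l) ≠ 0 := by
    intro l h0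
    obtain ⟨a, b, hab⟩ := h4
    have h6 := congrArg (eval (x l)) hab
    rw [eval_add, eval_mul, eval_mul, hev l, h0, eval_one] at h6
    simp at h6
  refine ⟨hQ, ?_, fun l => ?_⟩
  · funext l
    change (g.it n).1.eval (x l) / (g.it n).2.eval (x l) = z l
    rw [hev l, mul_div_assoc, div_self (hQ l), mul_one]
  · exact (rootMultiplicity_pos (fib_ne hIT hd g n (z l))).2 (hr l)

end Pool.Agent.H16.UDA
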